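import Pool.Agent.U237.NF.Lite

/-! Package BA of the project NF: the badly approximable numbers with a given constant form a compact null set. -/

set_option autoImplicit false

namespace Pool.Agent.U446.NF

open Finset Filter Topology MeasureTheory
open Pool.Agent.U237.NF.Lite (BAset S_BA)

lemma isClosed_BAset (M : ℕ) : IsClosed (BAset M) := by
  have : BAset M = ⋂ q : ℕ, ⋂ _ : 1 ≤ q, {x | 1 / ((M + 1 : ℝ) * q) ≤ ‖q • x‖} := by
    ext x
    simp [BAset]
  rw [this]
  refine isClosed_iInter fun q => isClosed_iInter fun _ => ?_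
  exact isClosed_le continuous_const (continuous_norm.comp (continuous_nsmul q))

/-- a point of order dividing `q` close to `x` -/
lemma exists_near (x : UnitAddCircle) (q : ℕ) (hq : 1 ≤ q) :
    ∃ u : UnitAddCircle, q • u = 0 ∧ ‖x - u‖ ≤ ‖q • x‖ / q := by
  obtain ⟨t, rfl⟩ := QuotientAddGroup.mk_surjective x
  have hq0 : (0 : ℝ) < q := by exact_mod_cast hq
  refine ⟨(((round ((q : ℝ) * t) : ℤ) / (q : ℝ) : ℝ) : UnitAddCircle), ?_, ?_⟩
  · rw [← AddCircle.coe_nsmul, nsmul_eq_mul, mul_div_cancel₀ _ hq0.ne']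
    rw [AddCircle.coe_eq_zero_iff]
    exact ⟨round ((q : ℝ) * t), by simp⟩
  · have h1 : ‖q • ((t : ℝ) : UnitAddCircle)‖ = |(q : ℝ) * t - round ((q : ℝ) * t)| := by
      rw [← AddCircle.coe_nsmul, nsmul_eq_mul, UnitAddCircle.norm_eq]
    have h2 : ((t : ℝ) : UnitAddCircle) - (((round ((q : ℝ) * t) : ℤ) / (q : ℝ) : ℝ) : UnitAddCircle)
        = ((t - (round ((q : ℝ) * t) : ℤ) / (q : ℝ) : ℝ) : UnitAddCircle) := by
      rw [AddCircle.coe_sub]
    change ‖((t : ℝ) : UnitAddCircle) - _‖ ≤ ‖q • ((t : ℝ) : UnitAddCircle)‖ / q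
    rw [h1, h2]
    rw [UnitAddCircle.norm_eq]
    refine (round_le _ 0).trans ?_
    rw [le_div_iff₀ hq0, Int.cast_zero, sub_zero]
    conv_lhs => rw [← abs_of_pos hq0, ← abs_mul]
    apply le_of_eq
    congr 1
    rw [abs_of_pos hq0]
    field_simp

theorem t_BA : S_BA := by
  intro M
  refine ⟨(isClosed_BAset M).isCompact, ?_⟩
  set A := BAset M with hA
  by_contra hne
  have hM : (0 : ℝ) < M + 1 := by positivity
  have hae := IsUnifLocDoublingMeasure.ae_tendsto_measure_inter_div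
    (volume : Measure UnitAddCircle) A (M + 2 : ℝ)
  have hmem : ∀ᵐ x ∂(volume.restrict A), x ∈ A :=
    ae_restrict_mem (isClosed_BAset M).measurableSet
  have hne' : (volume.restrict A) ≠ 0 := by
    rw [Ne, Measure.restrict_eq_zero]
    exact hne
  have : (ae (volume.restrict A)).NeBot := ae_neBot.2 hne'
  obtain ⟨x, hx1, hx2⟩ := (hae.and hmem).exists
  -- choice of the denominators
  have hch : ∀ n : ℕ, ∃ q : ℕ, 1 ≤ q ∧ ((n : ℝ) + 1) / (M + 1) ≤ q ∧ ∃ u : UnitAddCircle, q • u = 0 ∧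
      ‖x - u‖ ≤ 1 / (q : ℝ) ^ 2 := by
    intro n
    obtain ⟨q, hq, hqn⟩ := AddCircle.exists_norm_nsmul_le x (Nat.succ_pos n)
    rw [Set.mem_Icc] at hq
    obtain ⟨u, hu, hxu⟩ := exists_near x q hq.1
    have hq0 : (0 : ℝ) < q := by exact_mod_cast hq.1
    have h1 := hx2 q hq.1
    have h2 : (q : ℝ) ≤ n + 1 := by exact_mod_cast hq.2
    have h3 : ‖q • x‖ ≤ 1 / ((n : ℝ) + 2) := by
      refine hqn.trans (le_of_eq ?_)
      push_cast
      ring
    refine ⟨q, hq.1, ?_, u, hu, hxu.trans ?_⟩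
    · have h4 := h1.trans h3
      rw [div_le_div_iff₀ (by positivity) (by positivity)] at h4
      rw [div_le_iff₀ hM]
      nlinarith
    · rw [pow_two, ← div_div]
      apply div_le_div_of_nonneg_right _ hq0.le
      refine h3.trans ?_
      apply one_div_le_one_div_of_le hq0
      linarith
  choose q hq1 hq2 u hu1 hu2 using hch
  have hqpos : ∀ n, (0 : ℝ) < q n := fun n => by exact_mod_cast hq1 n
  have hqlim : Tendsto (fun n => (q n : ℝ)) atTop atTop := by
    refine tendsto_atTop_mono hq2 ?_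
    exact (tendsto_atTop_add_const_right _ _ tendsto_natCast_atTop_atTop).atTop_div_const hM
  have hδ : Tendsto (fun n => 1 / ((M + 2 : ℝ) * (q n : ℝ) ^ 2)) atTop (𝓝[>] 0) := by
    rw [tendsto_nhdsWithin_iff]
    constructor
    · have h1 : Tendsto (fun n => (M + 2 : ℝ) * (q n : ℝ) ^ 2) atTop atTop :=
        Tendsto.const_mul_atTop (by positivity) ((tendsto_pow_atTop (by norm_num)).comp hqlim)
      refine h1.inv_tendsto_atTop.congr fun n => ?_
      rw [Pi.inv_apply, one_div]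
    · refine Eventually.of_forall fun n => ?_
      have := hqpos n
      exact Set.mem_Ioi.2 (by positivity)
  have key := hx1 u (fun n => 1 / ((M + 2 : ℝ) * (q n : ℝ) ^ 2)) hδ (Eventually.of_forall fun n => by
    rw [Metric.mem_closedBall, dist_eq_norm]
    refine (hu2 n).trans (le_of_eq ?_)
    have := hqpos n
    field_simp)
  have hzero : ∀ n, A ∩ Metric.closedBall (u n) (1 / ((M + 2 : ℝ) * (q n : ℝ) ^ 2)) = ∅ := by
    intro n
    rw [Set.eq_empty_iff_forall_notMem]
    rintro z ⟨hz1, hz2⟩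
    rw [Metric.mem_closedBall, dist_eq_norm] at hz2
    have h1 := hz1 (q n) (hq1 n)
    have h2 : q n • z = q n • (z - u n) := by rw [nsmul_sub, hu1 n, sub_zero]
    rw [h2] at h1
    have h3 : ‖q n • (z - u n)‖ ≤ q n * ‖z - u n‖ := norm_nsmul_le
    have hqn := hqpos n
    have h4 : (q n : ℝ) * ‖z - u n‖ ≤ q n * (1 / ((M + 2 : ℝ) * (q n : ℝ) ^ 2)) := by gcongr
    have h5 : (q n : ℝ) * (1 / ((M + 2 : ℝ) * (q n : ℝ) ^ 2)) = 1 / ((M + 2 : ℝ) * q n) := by
      field_simp
    have h6 : 1 / ((M + 2 : ℝ) * q n) < 1 / ((M + 1 : ℝ) * q n) := by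
      apply one_div_lt_one_div_of_lt (by positivity)
      nlinarith
    linarith
  have h0 : Tendsto (fun _ : ℕ => (0 : ENNReal)) atTop (𝓝 1) := by
    refine key.congr fun n => ?_
    rw [hzero n, measure_empty, ENNReal.zero_div]
  have := tendsto_nhds_unique h0 tendsto_const_nhds
  exact one_ne_zero this

end Pool.Agent.U446.NF
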